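import Pool.Agent.Helper7.Stuck.Diff2
import Pool.Agent.Helper7.Stuck.SkoLim
import Pool.Agent.Helper7.Stuck.FinA

/-!
# Two-sided diffusion limit for the companion chain (MP_6f0d86_pr)

Conditionally on its end point, the rescaled companion chain (stopped below `ε n^{3/4}`)
converges weakly in `D([0, t1], ℝ³)` to the conditioned limit diffusion: Q1 is true.
-/

open MeasureTheory ProbabilityTheory Filter Topology
open scoped NNReal ENNReal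
open Pool.Agent.Helper7.Stuck

namespace Pool.Agent.Results.MP_6f0d86_pr.TwoSided

universe u v

/-- The rescaling `(δ, m, s) ↦ (n^{-1/2} δ, n^{-3/4} m, n^{-1} s)`. -/
noncomputable def rescale (n : ℕ) (z : St) : E3 :=
  ((z.1 : ℝ) / (n:ℝ) ^ (1/2 : ℝ), (z.2.1 : ℝ) / (n:ℝ) ^ (3/4 : ℝ), (z.2.2 : ℝ) / (n:ℝ))

/-- The stopped path `k ↦ Z (k ∧ T_K)`, where `T_K = inf {j > 0 : M_j < K}`. -/
noncomputable def stopped (K : ℝ) (Z : ℕ → St) (k : ℕ) : St :=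
  Z (sInf ({k} ∪ {j | 0 < j ∧ ((Z j).2.1 : ℝ) < K}))

theorem sc_eq (n : ℕ) (z : St) : sc ((n:ℝ) ^ (1/4 : ℝ)) z = rescale n z := by
  have hn : (0:ℝ) ≤ n := n.cast_nonneg
  have h2 : ((n:ℝ) ^ (1/4 : ℝ)) ^ 2 = (n:ℝ) ^ (1/2 : ℝ) := by
    rw [← Real.rpow_natCast, ← Real.rpow_mul hn]; norm_num
  have h3 : ((n:ℝ) ^ (1/4 : ℝ)) ^ 3 = (n:ℝ) ^ (3/4 : ℝ) := by
    rw [← Real.rpow_natCast, ← Real.rpow_mul hn]; norm_num
  have h4 : ((n:ℝ) ^ (1/4 : ℝ)) ^ 4 = (n:ℝ) := by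
    rw [← Real.rpow_natCast, ← Real.rpow_mul hn]; norm_num
  unfold sc rescale
  rw [h2, h3, h4]

/-- The rescaled process `ξ̄^n` on `[0, t1]` built from the discrete path `Z`: on
`[k n^{-1/4}, (k+1) n^{-1/4})` it equals the rescaled state at step `k` of the path stopped
below `ε n^{3/4}`. -/
noncomputable def xiBar (t1 ε : ℝ) (n : ℕ) (Z : ℕ → St) : Dsp t1 where
  path t := rescale n (stopped (ε * (n:ℝ) ^ (3/4 : ℝ)) Z ⌊(t:ℝ) * (n:ℝ) ^ (1/4 : ℝ)⌋₊)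
  cadlag := by
    have h := isCadlag_stepPath t1 ((n:ℝ) ^ (1/4 : ℝ)) (Real.rpow_nonneg n.cast_nonneg _)
      (stopped (ε * (n:ℝ) ^ (3/4 : ℝ)) Z)
    have h2 : stepPath t1 ((n:ℝ) ^ (1/4 : ℝ)) (stopped (ε * (n:ℝ) ^ (3/4 : ℝ)) Z) =
      fun t : Set.Icc (0:ℝ) t1 =>
        rescale n (stopped (ε * (n:ℝ) ^ (3/4 : ℝ)) Z ⌊(t:ℝ) * (n:ℝ) ^ (1/4 : ℝ)⌋₊) := by
      funext t
      unfold stepPath
      rw [sc_eq]
    rwa [h2] at h

theorem stopped_eq {K : ℝ} {Z : ℕ → St} {j k : ℕ} (h : aliveD K Z j) (hk : k ≤ j) :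
    stopped K Z k = Z k := by
  have h1 : sInf ({k} ∪ {i | 0 < i ∧ ((Z i).2.1 : ℝ) < K}) = k := by
    refine le_antisymm (Nat.sInf_le (Or.inl rfl)) ?_
    refine le_csInf ⟨k, Or.inl rfl⟩ ?_
    rintro i (hi | ⟨hi0, hi⟩)
    · exact le_of_eq (by simpa using hi.symm)
    · by_contra hcon
      push Not at hcon
      exact absurd (h i hi0 (hcon.le.trans hk)) (not_le.2 hi)
  unfold stopped
  rw [h1]

theorem alive_of_stopped {K : ℝ} {Z : ℕ → St} {j : ℕ} {z : St} (hz : K ≤ (z.2.1 : ℝ))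
    (h : stopped K Z j = z) : aliveD K Z j ∧ Z j = z := by
  have hne : (({j} ∪ {i | 0 < i ∧ ((Z i).2.1 : ℝ) < K}) : Set ℕ).Nonempty := ⟨j, Or.inl rfl⟩
  have hmem := Nat.sInf_mem hne
  have hle : sInf ({j} ∪ {i | 0 < i ∧ ((Z i).2.1 : ℝ) < K}) ≤ j := Nat.sInf_le (Or.inl rfl)
  have hj : sInf ({j} ∪ {i | 0 < i ∧ ((Z i).2.1 : ℝ) < K}) = j := by
    rcases hmem with h1 | h1
    · simpa using h1
    · exfalso
      unfold stopped at h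
      rw [← h] at hz
      exact absurd hz (not_le.2 h1.2)
  have hZ : Z j = z := by
    unfold stopped at h
    rwa [hj] at h
  refine ⟨fun i hi0 hij => ?_, hZ⟩
  by_contra hcon
  push Not at hcon
  have h1 : j ≤ i := by
    rw [← hj]; exact Nat.sInf_le (Or.inr ⟨hi0, hcon⟩)
  have h2 : i = j := le_antisymm hij h1
  rw [h2, hZ] at hcon
  exact absurd hz (not_le.2 hcon)

theorem rescale_inj {n : ℕ} (hn : 0 < n) {z z' : St} (h : rescale n z = rescale n z') :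
    z = z' := by
  have hn' : (0:ℝ) < n := by exact_mod_cast hn
  have h2 : (0:ℝ) < (n:ℝ) ^ (1/2 : ℝ) := Real.rpow_pos_of_pos hn' _
  have h3 : (0:ℝ) < (n:ℝ) ^ (3/4 : ℝ) := Real.rpow_pos_of_pos hn' _
  unfold rescale at h
  simp only [Prod.mk.injEq] at h
  obtain ⟨e1, e2, e3⟩ := h
  have e1' : (z.1:ℝ) = z'.1 := by field_simp at e1; exact e1
  have e2' : (z.2.1:ℝ) = z'.2.1 := by field_simp at e2; exact e2
  have e3' : (z.2.2:ℝ) = z'.2.2 := by field_simp at e3; exact e3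
  refine Prod.ext (by exact_mod_cast e1') (Prod.ext (by exact_mod_cast e2') (by exact_mod_cast e3'))

theorem lam_pow3 (n : ℕ) : ((n:ℝ) ^ (1/4 : ℝ)) ^ 3 = (n:ℝ) ^ (3/4 : ℝ) := by
  rw [← Real.rpow_natCast, ← Real.rpow_mul n.cast_nonneg]; norm_num

/-- For large `n` the conditioning event is that the unstopped chain is alive and at `b`. -/
theorem event_iff {t1 ε : ℝ} (ht1 : 0 < t1) {n : ℕ} (hn : 0 < n) {b : St}
    (hb : ε * (n:ℝ) ^ (3/4 : ℝ) ≤ (b.2.1 : ℝ)) (Z : ℕ → St) :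
    (xiBar t1 ε n Z).path ⟨t1, ht1.le, le_rfl⟩ = rescale n b ↔
      (Z ⌊t1 * (n:ℝ) ^ (1/4 : ℝ)⌋₊ = b ∧
        aliveD (ε * ((n:ℝ) ^ (1/4 : ℝ)) ^ 3) Z ⌊t1 * (n:ℝ) ^ (1/4 : ℝ)⌋₊) := by
  rw [lam_pow3]
  constructor
  · intro h
    have h1 := rescale_inj hn h
    obtain ⟨h2, h3⟩ := alive_of_stopped hb h1
    exact ⟨h3, h2⟩
  · rintro ⟨h1, h2⟩
    change rescale n (stopped (ε * (n:ℝ) ^ (3/4 : ℝ)) Z ⌊t1 * (n:ℝ) ^ (1/4 : ℝ)⌋₊) = rescale n b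
    rw [stopped_eq h2 le_rfl, h1]

theorem xiBar_eq {t1 ε : ℝ} {n : ℕ} (Z : ℕ → St)
    (h : aliveD (ε * ((n:ℝ) ^ (1/4 : ℝ)) ^ 3) Z ⌊t1 * (n:ℝ) ^ (1/4 : ℝ)⌋₊) :
    xiBar t1 ε n Z = stepD t1 ((n:ℝ) ^ (1/4 : ℝ)) (Real.rpow_nonneg n.cast_nonneg _) Z := by
  rw [lam_pow3] at h
  have hp : (xiBar t1 ε n Z).path =
      (stepD t1 ((n:ℝ) ^ (1/4 : ℝ)) (Real.rpow_nonneg n.cast_nonneg _) Z).path := by
    funext t
    change rescale n (stopped (ε * (n:ℝ) ^ (3/4 : ℝ)) Z ⌊(t:ℝ) * (n:ℝ) ^ (1/4 : ℝ)⌋₊) =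
      sc ((n:ℝ) ^ (1/4 : ℝ)) (Z ⌊(t:ℝ) * (n:ℝ) ^ (1/4 : ℝ)⌋₊)
    rw [sc_eq, stopped_eq h]
    exact Nat.floor_mono (mul_le_mul_of_nonneg_right t.2.2 (Real.rpow_nonneg n.cast_nonneg _))
  have ext' : ∀ x y : Dsp t1, x.path = y.path → x = y := by
    rintro ⟨x, hx⟩ ⟨y, hy⟩ hxy
    cases hxy; rfl
  exact ext' _ _ hp

/-- **Two-sided diffusion limit.** -/
theorem result {Ω : Type u} [MeasurableSpace Ω] (P : Measure Ω) [IsProbabilityMeasure P]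
    (g : ℕ → ℕ → Ω → ℕ) (hg : IsGeom P g)
    (t1 ε : ℝ) (ht1 : 0 < t1) (hε : 0 < ε)
    (z0 : E3) (hz0 : ε < z0.2.1)
    (a : ℕ → St) (ha : Tendsto (fun n => rescale n (a n)) atTop (𝓝 z0))
    {Ω' : Type v} [mΩ' : MeasurableSpace Ω'] (P' : Measure Ω') [IsProbabilityMeasure P']
    (ℱ : Filtration ℝ≥0 mΩ') (W : ℝ≥0 → Ω' → ℝ) (ξ : ℝ≥0 → Ω' → E3)
    (hξ : IsFrozenSol P' ℱ W ε z0 ξ)
    (κ : Kernel E3 C(Set.Icc (0:ℝ) t1, E3)) [IsMarkovKernel κ]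
    (hκ : (P'.map (ξ t1.toNNReal)) ⊗ₘ κ =
      P'.map (fun ω => (ξ t1.toNNReal ω, pathC t1 ξ hξ.cont ω))) :
    ∀ᵐ z1 ∂(P'.map (ξ t1.toNNReal)), ε < z1.2.1 → ∀ b : ℕ → St,
      Tendsto (fun n => rescale n (b n)) atTop (𝓝 z1) →
      (∀ᶠ n in atTop, P {ω | (xiBar t1 ε n (fun i => chain (a n) (fun i k => g i k ω) i)).path
        ⟨t1, ht1.le, le_rfl⟩ = rescale n (b n)} ≠ 0) ∧
      ∀ G : BoundedContinuousFunction (Dsp t1) ℝ,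
        Tendsto (fun n => ∫ ω, G (xiBar t1 ε n (fun i => chain (a n) (fun i k => g i k ω) i))
          ∂(P[|{ω | (xiBar t1 ε n (fun i => chain (a n) (fun i k => g i k ω) i)).path
            ⟨t1, ht1.le, le_rfl⟩ = rescale n (b n)}])) atTop
          (𝓝 (∫ x, G (ofC x) ∂(κ z1))) := by
  classical
  have hlam : Tendsto (fun n : ℕ => (n:ℝ) ^ (1/4 : ℝ)) atTop atTop :=
    (tendsto_rpow_atTop (by norm_num)).comp tendsto_natCast_atTop_atTop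
  have ha' : Tendsto (fun n : ℕ => sc ((n:ℝ) ^ (1/4 : ℝ)) (a n)) atTop (𝓝 z0) := by
    simpa only [sc_eq] using ha
  choose 𝒢 h𝒢 using fun n => geom_isChain P g hg (a n)
  obtain ⟨d, hd⟩ := TopologicalSpace.exists_dense_seq C(Set.Icc (0:ℝ) t1, E3)
  have key := fun L : List (ℕ × ℕ) =>
    cond_limit P ε t1 hε ht1 z0 hz0 (fun n : ℕ => (n:ℝ) ^ (1/4 : ℝ)) hlam a ha' 𝒢
      (fun n i ω => chain (a n) (fun i k => g i k ω) i) _ h𝒢 P' ℱ W ξ hξ κ hκ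
      (Phi (L.map fun p => (d p.1, p.2))) (Phi_bdd _) (Phi_uc _)
  filter_upwards [ae_all_iff.2 key] with z1 hz1 hε1 b hb
  have hb' : Tendsto (fun n : ℕ => sc ((n:ℝ) ^ (1/4 : ℝ)) (b n)) atTop (𝓝 z1) := by
    simpa only [sc_eq] using hb
  have hbm : ∀ᶠ n : ℕ in atTop, ε * (n:ℝ) ^ (3/4 : ℝ) ≤ ((b n).2.1 : ℝ) := by
    have h1 : Tendsto (fun n => (rescale n (b n)).2.1) atTop (𝓝 z1.2.1) :=
      ((continuous_fst.comp continuous_snd).tendsto z1).comp hb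
    filter_upwards [h1.eventually_const_lt hε1, eventually_gt_atTop 0] with n hn hn0
    have hn' : (0:ℝ) < (n:ℝ) ^ (3/4 : ℝ) := Real.rpow_pos_of_pos (by exact_mod_cast hn0) _
    have h2 : ε < ((b n).2.1 : ℝ) / (n:ℝ) ^ (3/4 : ℝ) := hn
    rw [lt_div_iff₀ hn'] at h2
    exact h2.le
  obtain ⟨hpos, -⟩ := hz1 [] hε1 b hb'
  set Zn : ℕ → Ω → ℕ → St := fun n ω i => chain (a n) (fun i k => g i k ω) i with hZn
  set A : ℕ → Set Ω := fun n => {ω | Zn n ω ⌊t1 * (n:ℝ) ^ (1/4 : ℝ)⌋₊ = b n ∧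
    aliveD (ε * ((n:ℝ) ^ (1/4 : ℝ)) ^ 3) (Zn n ω) ⌊t1 * (n:ℝ) ^ (1/4 : ℝ)⌋₊} with hA
  have hev : ∀ᶠ n : ℕ in atTop, {ω | (xiBar t1 ε n (Zn n ω)).path
      ⟨t1, ht1.le, le_rfl⟩ = rescale n (b n)} = A n := by
    filter_upwards [hbm, eventually_gt_atTop 0] with n hn hn0
    ext ω
    exact event_iff ht1 hn0 hn (Zn n ω)
  have hAm : ∀ n, MeasurableSet (A n) := by
    intro n
    have h1 := fin_measurable_path (h𝒢 n) ⌊t1 * (n:ℝ) ^ (1/4 : ℝ)⌋₊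
      (β := Prop) (fun y => y ⌊t1 * (n:ℝ) ^ (1/4 : ℝ)⌋₊ = b n ∧
        aliveD (ε * ((n:ℝ) ^ (1/4 : ℝ)) ^ 3) y ⌊t1 * (n:ℝ) ^ (1/4 : ℝ)⌋₊) (by
        intro y y' hy
        have e1 : y ⌊t1 * (n:ℝ) ^ (1/4 : ℝ)⌋₊ = y' ⌊t1 * (n:ℝ) ^ (1/4 : ℝ)⌋₊ := hy _ le_rfl
        have e2 : aliveD (ε * ((n:ℝ) ^ (1/4 : ℝ)) ^ 3) y ⌊t1 * (n:ℝ) ^ (1/4 : ℝ)⌋₊ ↔
            aliveD (ε * ((n:ℝ) ^ (1/4 : ℝ)) ^ 3) y' ⌊t1 * (n:ℝ) ^ (1/4 : ℝ)⌋₊ := by
          unfold aliveD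
          exact forall_congr' fun i => forall_congr' fun _ => forall_congr' fun hi => by
            rw [hy i hi]
        simp only [e1, e2])
    exact measurableSet_setOfPred.2 h1
  have hposA : ∀ᶠ n : ℕ in atTop, 0 < P.real (A n) := hpos
  refine ⟨?_, fun G => ?_⟩
  · filter_upwards [hev, hposA] with n hn hp
    rw [hn]
    intro h0
    rw [Measure.real, h0] at hp
    simp at hp
  · have hsko := sko_limit P t1 ht1 A hAm hposA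
      (fun n ω => stepD t1 ((n:ℝ) ^ (1/4 : ℝ)) (Real.rpow_nonneg n.cast_nonneg _) (Zn n ω))
      (by
        intro n H
        refine fin_measurable_path (h𝒢 n) ⌊t1 * (n:ℝ) ^ (1/4 : ℝ)⌋₊
          (fun y => H (stepD t1 ((n:ℝ) ^ (1/4 : ℝ)) (Real.rpow_nonneg n.cast_nonneg _) y)) ?_
        intro y y' hy
        have : stepD t1 ((n:ℝ) ^ (1/4 : ℝ)) (Real.rpow_nonneg n.cast_nonneg _) y =
            stepD t1 ((n:ℝ) ^ (1/4 : ℝ)) (Real.rpow_nonneg n.cast_nonneg _) y' := by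
          unfold stepD
          congr 1
          funext t
          unfold stepPath
          rw [hy]
          exact Nat.floor_mono (mul_le_mul_of_nonneg_right t.2.2
            (Real.rpow_nonneg n.cast_nonneg _))
        simp only [this])
      (κ z1) d hd (fun L => (hz1 L hε1 b hb').2) G
    refine hsko.congr' ?_
    filter_upwards [hev] with n hn
    rw [hn]
    have h1 : ∫ ω in A n, G (stepD t1 ((n:ℝ) ^ (1/4 : ℝ))
        (Real.rpow_nonneg n.cast_nonneg _) (Zn n ω)) ∂P =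
        ∫ ω in A n, G (xiBar t1 ε n (Zn n ω)) ∂P := by
      refine setIntegral_congr_fun (hAm n) ?_
      intro ω hω
      simp only
      rw [xiBar_eq (Zn n ω) hω.2]
    rw [h1, ProbabilityTheory.cond, integral_smul_measure]
    rw [ENNReal.toReal_inv, smul_eq_mul, div_eq_inv_mul]
    rfl

end Pool.Agent.Results.MP_6f0d86_pr.TwoSided
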